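import Mathlib
import Pool.Agent.N485.BT.ProdIff

/-! # MP_56153a_al: direct products of supramenable groups and binary trees in products

`SupramenableM G`: for every nonempty `A` there is a finitely additive left-invariant measure on all
subsets of `G`, with values in `[0, ∞]`, that gives `A` measure one.
`QIEmb (wordDist S) f`: `f` is a quasi-isometric embedding of the infinite rooted binary tree into the
group with the word metric of `S`.

Q1 is equivalent to a statement of coarse geometry, without measures or paradoxical sets: if the
direct product of two finitely generated groups contains a quasi-isometrically embedded binary tree,
then one of the two groups contains one. (The word metrics of two finite generating sets of one group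
are quasi-isometric, so the choice of the generating sets does not matter.) -/

set_option autoImplicit false

namespace Pool.Agent.Results.MP_56153a_al.TreesInProducts

open Pool.Agent.N485.BT

universe u

theorem result :
    (∀ (G H : Type u) [Group G] [Group H], SupramenableM G → SupramenableM H →
      SupramenableM (G × H)) ↔
    (∀ (G H : Type u) [Group G] [Group H] (S : Finset G) (T : Finset H) (U : Finset (G × H)),
      Subgroup.closure (S : Set G) = ⊤ → Subgroup.closure (T : Set H) = ⊤ →
      Subgroup.closure (U : Set (G × H)) = ⊤ →
      (∃ f : List Bool → G × H, QIEmb (wordDist U) f) →
      (∃ f : List Bool → G, QIEmb (wordDist S) f) ∨
        ∃ f : List Bool → H, QIEmb (wordDist T) f) :=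
  product_iff

end Pool.Agent.Results.MP_56153a_al.TreesInProducts
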